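import Mathlib

set_option autoImplicit false

/-!
Problem MP_89f45c_al, Q1, full positive answer: the strong skew Finitesatz in several variables.

For a point `a` of `F ^ (n, σ)` the field `F` is a module `Fib a` over `R_n = F[x_1, …, x_n; σ]`, on
which `x_i` acts as `v ↦ σ(v) a_i`; it is simple, and `f(a) = f • 1`. The finite product of the
modules `Fib a` is semisimple, so that the submodule `J w`, `w = (1, …, 1)`, has a complement. If
`f • w` is not in `J w`, then the projection to the complement gives a homomorphism from `R_n` to some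
`Fib a` which vanishes on `J`, but not at `f`. It sends `r` to `r • c = r(b) c`, where
`b_i = σ(c) a_i / c`, so `b` is in the zero set of `J` and `f(b) ≠ 0`.
-/

namespace Pool.Agent.Results.MP_89f45c_al.SkewFinitesatz

open Finset

variable {F : Type} [Field F]

/-- The commutative monoid of the monomials `x_1 ^ k_1 ⋯ x_n ^ k_n`; it acts on `F`, `x_i` acts as
`σ`. -/
def Mon (_σ : F ≃+* F) (n : ℕ) : Type := Multiplicative (Fin n → ℕ)

variable {σ : F ≃+* F} {n : ℕ}

instance : CommMonoid (Mon σ n) := inferInstanceAs (CommMonoid (Multiplicative (Fin n → ℕ)))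

/-- The exponents of a monomial. -/
def Mon.exps (m : Mon σ n) : Fin n → ℕ := Multiplicative.toAdd m

/-- The monomial with given exponents. -/
def Mon.ofExps (σ : F ≃+* F) {n : ℕ} (k : Fin n → ℕ) : Mon σ n := Multiplicative.ofAdd k

/-- The monomial `m` acts as `σ ^ deg m`. -/
def Mon.act : Mon σ n →* RingAut F where
  toFun m := σ ^ (∑ i, m.exps i)
  map_one' := by
    have : ∀ i, (1 : Mon σ n).exps i = 0 := fun i => rfl
    simp [this]
  map_mul' m m' := by
    have : ∀ i, (m * m').exps i = m.exps i + m'.exps i := fun i => rfl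
    simp only [this, Finset.sum_add_distrib, pow_add]

instance : MulSemiringAction (Mon σ n) F := MulSemiringAction.compHom F (Mon.act (σ := σ) (n := n))

lemma smul_def (m : Mon σ n) (c : F) : m • c = (σ ^ (∑ i, m.exps i) : RingAut F) c := rfl

/-- The skew polynomial ring `R_n = F[x_1, …, x_n; σ]`: the finite sums of the terms
`single m c = c m`, `m` a monomial, with the product
`(c m) (c' m') = c σ ^ (deg m) (c') m m'`. -/
abbrev SkewPoly (σ : F ≃+* F) (n : ℕ) : Type := SkewMonoidAlgebra F (Mon σ n)

/-- The variable `x_i`. -/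
noncomputable def X (i : Fin n) : SkewPoly σ n :=
  SkewMonoidAlgebra.single (Mon.ofExps σ (Pi.single i 1)) 1

/-- The constants. -/
noncomputable def C (c : F) : SkewPoly σ n := SkewMonoidAlgebra.single 1 c

lemma single_mul_single (m m' : Mon σ n) (c c' : F) :
    (SkewMonoidAlgebra.single m c * SkewMonoidAlgebra.single m' c' : SkewPoly σ n) =
      SkewMonoidAlgebra.single (m * m') (c * m • c') := by
  rw [SkewMonoidAlgebra.mul_def, SkewMonoidAlgebra.sum_single_index,
    SkewMonoidAlgebra.sum_single_index] <;> simp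

/-- The relation `x_i c = σ(c) x_i`. -/
lemma X_mul_C (i : Fin n) (c : F) : (X i * C c : SkewPoly σ n) = C (σ c) * X i := by
  unfold X C
  rw [single_mul_single, single_mul_single, smul_def, smul_def]
  have h1 : ∑ j, (Mon.ofExps σ (Pi.single i 1 : Fin n → ℕ)).exps j = 1 := by
    have : ∀ j, (Mon.ofExps σ (Pi.single i 1 : Fin n → ℕ)).exps j = (Pi.single i 1 : Fin n → ℕ) j :=
      fun j => rfl
    simp only [this]
    simp
  rw [h1, pow_one, mul_one, one_mul, map_one, mul_one, one_mul]

/-- The relation `x_i x_j = x_j x_i`. -/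
lemma X_mul_X (i j : Fin n) : (X i * X j : SkewPoly σ n) = X j * X i := by
  unfold X
  rw [single_mul_single, single_mul_single, smul_one, smul_one, mul_comm (Mon.ofExps σ _)]

/-- `N_k(c) = σ ^ (k - 1) (c) ⋯ σ(c) c`. -/
def nrm (σ : F ≃+* F) (k : ℕ) (c : F) : F := ∏ i ∈ range k, (σ ^ i : RingAut F) c

/-- The value of the monomial with the exponents `k` at `a`:
`∏_i σ ^ (k_1 + ⋯ + k_(i-1)) (N_(k_i) (a_i))`. -/
def monEval (σ : F ≃+* F) {n : ℕ} (a : Fin n → F) (k : Fin n → ℕ) : F :=
  ∏ i, (σ ^ (∑ j ∈ univ.filter (· < i), k j) : RingAut F) (nrm σ (k i) (a i))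

/-- The value `f(a)` of a skew polynomial. -/
noncomputable def eval (a : Fin n → F) (f : SkewPoly σ n) : F :=
  f.sum fun m c => c * monEval σ a m.exps

/-- The `σ`-affine space `F ^ (n, σ)`. -/
def AffineSpace (σ : F ≃+* F) (n : ℕ) : Type :=
  {a : Fin n → F // ∀ i j, σ (a j) * a i = σ (a i) * a j}

/-! ### The action of the ring on `F` given by a point -/

/-- The operator `v ↦ σ(v) a`. -/
def op (σ : F ≃+* F) (a : F) : AddMonoid.End F :=
  (AddMonoidHom.mulRight a).comp (σ : F →+* F).toAddMonoidHom

lemma op_apply (a v : F) : op σ a v = σ v * a := rfl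

lemma op_commute {a b : F} (h : σ b * a = σ a * b) : Commute (op σ a) (op σ b) := by
  ext v
  show σ (σ v * b) * a = σ (σ v * a) * b
  rw [map_mul, map_mul, mul_assoc, mul_assoc, h]

lemma nrm_succ (k : ℕ) (c : F) : nrm σ (k + 1) c = σ (nrm σ k c) * c := by
  unfold nrm
  rw [Finset.prod_range_succ', map_prod]
  congr 1
  refine Finset.prod_congr rfl fun i _ => ?_
  rw [pow_succ']
  rfl

lemma op_pow (a : F) (k : ℕ) (v : F) :
    (op σ a ^ k) v = (σ ^ k : RingAut F) v * nrm σ k a := by
  induction k with
  | zero => simp [nrm]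
  | succ k ih =>
    rw [pow_succ']
    show op σ a ((op σ a ^ k) v) = _
    rw [ih, op_apply, map_mul, nrm_succ, mul_assoc, pow_succ']
    rfl

/-- The operator of the monomial with the exponents `k`. -/
def opMon (σ : F ≃+* F) {n : ℕ} (a : Fin n → F) (k : Fin n → ℕ) : AddMonoid.End F :=
  (List.ofFn fun i => op σ (a i) ^ k i).prod

lemma opMon_zero (a : Fin n → F) : opMon σ a 0 = 1 := by
  unfold opMon
  apply List.prod_eq_one
  intro x hx
  rw [List.mem_ofFn] at hx
  obtain ⟨i, rfl⟩ := hx
  simp

lemma opMon_succ (a : Fin (n + 1) → F) (k : Fin (n + 1) → ℕ) :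
    opMon σ a k = op σ (a 0) ^ k 0 * opMon σ (Fin.tail a) (Fin.tail k) := by
  unfold opMon
  rw [List.ofFn_succ, List.prod_cons]
  rfl

lemma opMon_add (a : Fin n → F) (ha : ∀ i j, σ (a j) * a i = σ (a i) * a j) (k l : Fin n → ℕ) :
    opMon σ a (k + l) = opMon σ a k * opMon σ a l := by
  induction n with
  | zero => simp [opMon]
  | succ n ih =>
    rw [opMon_succ, opMon_succ, opMon_succ]
    have h1 : Fin.tail (k + l) = Fin.tail k + Fin.tail l := rfl
    have hc : Commute (op σ (a 0) ^ l 0) (opMon σ (Fin.tail a) (Fin.tail k)) := by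
      unfold opMon
      apply Commute.list_prod_right
      intro x hx
      rw [List.mem_ofFn] at hx
      obtain ⟨i, rfl⟩ := hx
      exact (op_commute (ha _ _)).pow_pow _ _
    rw [h1, ih (Fin.tail a) (fun i j => ha _ _), Pi.add_apply, pow_add]
    simp only [mul_assoc]
    rw [← mul_assoc (opMon σ (Fin.tail a) (Fin.tail k)), ← hc.eq]
    simp only [mul_assoc]

lemma monEval_succ (a : Fin (n + 1) → F) (k : Fin (n + 1) → ℕ) :
    monEval σ a k = nrm σ (k 0) (a 0) *
      (σ ^ k 0 : RingAut F) (monEval σ (Fin.tail a) (Fin.tail k)) := by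
  unfold monEval
  rw [Fin.prod_univ_succ, map_prod]
  congr 1
  · have : (univ.filter (· < (0 : Fin (n + 1)))) = ∅ := by
      ext i; simp
    rw [this]
    simp
  · refine Finset.prod_congr rfl fun i _ => ?_
    have : ∑ j ∈ univ.filter (· < i.succ), k j =
        k 0 + ∑ j ∈ univ.filter (· < i), Fin.tail k j := by
      rw [Finset.sum_filter, Finset.sum_filter, Fin.sum_univ_succ]
      simp [Fin.tail, Fin.succ_lt_succ_iff]
    rw [this, pow_add]
    rfl

lemma opMon_apply (a : Fin n → F) (k : Fin n → ℕ) (v : F) :
    opMon σ a k v = (σ ^ (∑ i, k i) : RingAut F) v * monEval σ a k := by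
  induction n with
  | zero => simp [opMon, monEval]
  | succ n ih =>
    rw [opMon_succ]
    show (op σ (a 0) ^ k 0) (opMon σ (Fin.tail a) (Fin.tail k) v) = _
    rw [ih, op_pow, map_mul, monEval_succ, Fin.sum_univ_succ, pow_add]
    show _ = (σ ^ k 0 : RingAut F) ((σ ^ (∑ i : Fin n, k i.succ) : RingAut F) v) * _
    have : ∑ i, Fin.tail k i = ∑ i : Fin n, k i.succ := rfl
    rw [this]
    ring

/-- The ring homomorphism from `R_n` to the additive endomorphisms of `F` which is given by a point of
`F ^ (n, σ)`. -/
noncomputable def rep (a : AffineSpace σ n) : SkewPoly σ n →+* AddMonoid.End F :=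
  SkewMonoidAlgebra.liftNCRingHom (Module.toAddMonoidEnd F F)
    { toFun := fun m : Mon σ n => opMon σ a.1 m.exps
      map_one' := opMon_zero a.1
      map_mul' := fun m m' => opMon_add a.1 a.2 m.exps m'.exps }
    (by
      intro x m
      ext v
      show (m • x) * opMon σ a.1 m.exps v = opMon σ a.1 m.exps (x * v)
      rw [opMon_apply, opMon_apply, map_mul, smul_def, mul_assoc])

lemma rep_single (a : AffineSpace σ n) (m : Mon σ n) (c v : F) :
    rep a (SkewMonoidAlgebra.single m c) v = c * opMon σ a.1 m.exps v := by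
  have : rep a (SkewMonoidAlgebra.single m c) =
      Module.toAddMonoidEnd F F c * opMon σ a.1 m.exps :=
    SkewMonoidAlgebra.liftNC_single _ _ _ _
  rw [this]
  rfl

lemma eval_add (a : Fin n → F) (f g : SkewPoly σ n) : eval a (f + g) = eval a f + eval a g := by
  unfold eval
  exact SkewMonoidAlgebra.sum_add_index' (fun _ => zero_mul _) (fun _ _ _ => add_mul _ _ _)

lemma eval_single (a : Fin n → F) (m : Mon σ n) (c : F) :
    eval a (SkewMonoidAlgebra.single m c) = c * monEval σ a m.exps := by
  unfold eval
  exact SkewMonoidAlgebra.sum_single_index (zero_mul _)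

lemma eval_zero (a : Fin n → F) : eval a (0 : SkewPoly σ n) = 0 := by
  unfold eval
  exact SkewMonoidAlgebra.sum_zero_index

/-- The twisted point. -/
def twist (a : AffineSpace σ n) (c : F) (hc : c ≠ 0) : AffineSpace σ n :=
  ⟨fun i => σ c * a.1 i / c, fun i j => by
    have h : σ c ≠ 0 := (map_ne_zero σ).2 hc
    have := a.2 i j
    simp only [map_div₀, map_mul]
    field_simp
    linear_combination (σ (σ c)) * this⟩

lemma opMon_twist (a b : Fin n → F) (c : F) (h : ∀ i, b i * c = σ c * a i) (k : Fin n → ℕ) (v : F) :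
    opMon σ b k v * c = opMon σ a k (v * c) := by
  induction n with
  | zero => simp [opMon]
  | succ n ih =>
    have h1 : ∀ (i : Fin (n + 1)) (l : ℕ) (v : F), (op σ (b i) ^ l) v * c = (op σ (a i) ^ l) (v * c) := by
      intro i l
      induction l with
      | zero => intro v; simp
      | succ l ihl =>
        intro v
        rw [pow_succ', pow_succ']
        show op σ (b i) ((op σ (b i) ^ l) v) * c = op σ (a i) ((op σ (a i) ^ l) (v * c))
        rw [← ihl, op_apply, op_apply, map_mul, mul_assoc, h, mul_assoc]
    rw [opMon_succ, opMon_succ]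
    show (op σ (b 0) ^ k 0) (opMon σ (Fin.tail b) (Fin.tail k) v) * c =
      (op σ (a 0) ^ k 0) (opMon σ (Fin.tail a) (Fin.tail k) (v * c))
    rw [h1, ih (Fin.tail a) (Fin.tail b) (fun i => h _)]

lemma rep_eq_eval (a : AffineSpace σ n) (c : F) (hc : c ≠ 0) (f : SkewPoly σ n) :
    rep a f c = eval (twist a c hc).1 f * c := by
  induction f using SkewMonoidAlgebra.induction_on with
  | zero => rw [map_zero, eval_zero, zero_mul]; rfl
  | single m x =>
    rw [rep_single, eval_single, mul_assoc]
    congr 1
    have h := opMon_twist a.1 (twist a c hc).1 c (fun i => by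
      show σ c * a.1 i / c * c = _
      field_simp) m.exps 1
    rw [opMon_apply, map_one, one_mul, one_mul] at h
    exact h.symm
  | add f g hf hg =>
    rw [map_add, eval_add, add_mul, ← hf, ← hg]
    rfl

lemma twist_one (a : AffineSpace σ n) : twist a 1 one_ne_zero = a := by
  apply Subtype.ext
  funext i
  simp [twist]

lemma eval_eq_rep (a : AffineSpace σ n) (f : SkewPoly σ n) : eval a.1 f = rep a f 1 := by
  rw [rep_eq_eval a 1 one_ne_zero, twist_one, mul_one]

/-- The left ideal `ℐ(S)` of the skew polynomials which vanish on `S`. -/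
noncomputable def vanishingIdeal (S : Set (AffineSpace σ n)) : Ideal (SkewPoly σ n) where
  carrier := {f | ∀ a ∈ S, eval a.1 f = 0}
  add_mem' := fun {f g} hf hg a ha => by rw [eval_add, hf a ha, hg a ha, add_zero]
  zero_mem' := fun a _ => eval_zero _
  smul_mem' := fun g f hf a ha => by
    have h := hf a ha
    rw [eval_eq_rep] at h ⊢
    rw [smul_eq_mul, map_mul]
    show rep a g (rep a f 1) = 0
    rw [h, map_zero]

/-- The zero set `𝒱(J)`. -/
def zeroLocus (J : Ideal (SkewPoly σ n)) : Set (AffineSpace σ n) :=
  {a | ∀ f ∈ J, eval a.1 f = 0}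

/-- The field `F` as a module over `R_n`. -/
def Fib (_a : AffineSpace σ n) : Type := F

instance (a : AffineSpace σ n) : AddCommGroup (Fib a) := inferInstanceAs (AddCommGroup F)

noncomputable instance (a : AffineSpace σ n) : Module (SkewPoly σ n) (Fib a) :=
  Module.compHom F (rep a)

lemma fib_smul (a : AffineSpace σ n) (f : SkewPoly σ n) (v : Fib a) :
    f • v = (rep a f (v : F) : F) := rfl

instance (a : AffineSpace σ n) : IsSimpleModule (SkewPoly σ n) (Fib a) := by
  rw [isSimpleModule_iff]
  refine { exists_pair_ne := ⟨⊥, ⊤, ?_⟩, eq_bot_or_eq_top := ?_ }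
  · intro h
    let one : Fib a := (1 : F)
    have : one ∈ (⊥ : Submodule (SkewPoly σ n) (Fib a)) := by rw [h]; trivial
    have h1 : one = 0 := (Submodule.mem_bot (SkewPoly σ n)).1 this
    exact (one_ne_zero : (1 : F) ≠ 0) h1
  · intro N
    by_cases hN : N = ⊥
    · exact Or.inl hN
    · right
      obtain ⟨v, hv, hv0⟩ := (Submodule.ne_bot_iff N).1 hN
      rw [eq_top_iff]
      intro w _
      let w' : F := w
      let v' : F := v
      have h : (SkewMonoidAlgebra.single 1 (w' / v') : SkewPoly σ n) • v = w := by
        have h1 : rep a (SkewMonoidAlgebra.single 1 (w' / v')) v' = w' := by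
          rw [rep_single]
          have : opMon σ a.1 (1 : Mon σ n).exps = 1 := opMon_zero a.1
          rw [this]
          exact div_mul_cancel₀ w' hv0
        exact h1
      rw [← h]
      exact N.smul_mem _ hv

/-- **The strong skew Finitesatz.** For every finite field `F`, every automorphism `σ` of `F`, every
`n` and every left ideal `J` of `R_n = F[x_1, …, x_n; σ]`, the left ideal of the skew polynomials
which vanish on the zero set of `J` in `F ^ (n, σ)` is the sum of `J` and of the left ideal of the
skew polynomials which vanish on `F ^ (n, σ)`. -/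
theorem result [Finite F] (J : Ideal (SkewPoly σ n)) :
    vanishingIdeal (zeroLocus J) = J ⊔ vanishingIdeal Set.univ := by
  have hfin : Finite (AffineSpace σ n) := Subtype.finite
  apply le_antisymm
  · intro f hf
    let w : Π a : AffineSpace σ n, Fib a := fun a => (1 : F)
    let N : Submodule (SkewPoly σ n) (Π a : AffineSpace σ n, Fib a) :=
      Submodule.map (LinearMap.toSpanSingleton (SkewPoly σ n) (Π a : AffineSpace σ n, Fib a) w) J
    obtain ⟨Q, hQ⟩ := exists_isCompl N
    by_cases hfw : f • w ∈ N
    · obtain ⟨g, hg, hgw⟩ := (Submodule.mem_map).1 hfw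
      rw [Submodule.mem_sup]
      refine ⟨g, hg, f - g, ?_, by abel⟩
      intro a _
      rw [eval_eq_rep, map_sub]
      have := congrFun hgw a
      have h2 : rep a g 1 = rep a f 1 := this
      show rep a f 1 - rep a g 1 = 0
      rw [h2, sub_self]
    · exfalso
      let π := Submodule.projectionOnto Q N hQ.symm
      have hπ : π (f • w) ≠ 0 := by
        intro h
        apply hfw
        have h2 : f • w ∈ LinearMap.ker π := h
        rwa [Submodule.ker_projectionOnto] at h2
      have hπ' : ((π (f • w) : Q) : Π a : AffineSpace σ n, Fib a) ≠ 0 := fun h =>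
        hπ (Subtype.ext h)
      obtain ⟨a, ha⟩ := Function.ne_iff.1 hπ'
      let c : F := ((π w : Q) : Π a : AffineSpace σ n, Fib a) a
      have hr : ∀ r : SkewPoly σ n, ((π (r • w) : Q) : Π a : AffineSpace σ n, Fib a) a = rep a r c := by
        intro r
        rw [map_smul]
        rfl
      have hc : c ≠ 0 := by
        intro h
        apply ha
        rw [hr, h, map_zero]
        rfl
      have hb : twist a c hc ∈ zeroLocus J := by
        intro g hg
        have h1 : π (g • w) = 0 := by
          have h2 : g • w ∈ LinearMap.ker π := by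
            rw [Submodule.ker_projectionOnto]
            exact Submodule.mem_map_of_mem (f := LinearMap.toSpanSingleton (SkewPoly σ n) (Π a : AffineSpace σ n, Fib a) w) hg
          exact h2
        have h2 := hr g
        rw [h1, rep_eq_eval a c hc] at h2
        exact (mul_eq_zero.1 h2.symm).resolve_right hc
      have h3 := hf _ hb
      have h4 := hr f
      rw [rep_eq_eval a c hc, h3, zero_mul] at h4
      exact ha h4
  · apply sup_le
    · intro f hf a ha
      exact ha f hf
    · intro f hf a _
      exact hf a trivial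

end Pool.Agent.Results.MP_89f45c_al.SkewFinitesatz
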